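import Pool.Agent.W268.Dy.Stm

/-! # Galerkin solutions of the dyadic model -/

set_option autoImplicit false

namespace Pool.Agent.W455.DyGal

open Pool.Agent.W268.Dy Finset

/-! ### Sums over generations -/

theorem gsum_nonneg {K : ℕ} (n : ℕ) :
    ∀ (f : Node K → ℝ), (∀ w, 0 ≤ f w) → 0 ≤ gsum n f := by
  induction n with
  | zero => intro f hf; exact hf []
  | succ n ih => intro f hf; exact Finset.sum_nonneg fun c _ => ih _ fun u => hf _

theorem le_gsum {K : ℕ} (w : Node K) :
    ∀ (f : Node K → ℝ), (∀ w, 0 ≤ f w) → f w ≤ gsum w.length f := by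
  induction w with
  | nil => intro f _; exact le_refl _
  | cons c u ih =>
    intro f hf
    refine (ih (fun u => f (c :: u)) (fun u => hf _)).trans ?_
    exact Finset.single_le_sum (f := fun c => gsum u.length (fun u => f (c :: u)))
      (fun c _ => gsum_nonneg _ _ fun u => hf _) (Finset.mem_univ c)

theorem gsum_congr {K : ℕ} (n : ℕ) : ∀ (f g : Node K → ℝ),
    (∀ w, w.length = n → f w = g w) → gsum n f = gsum n g := by
  induction n with
  | zero => intro f g h; exact h [] rfl
  | succ n ih =>
    intro f g h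
    exact Finset.sum_congr rfl fun c _ => ih _ _ fun u hu => h _ (by simp [hu])

theorem gsum_add {K : ℕ} (n : ℕ) : ∀ (f g : Node K → ℝ),
    gsum n (fun w => f w + g w) = gsum n f + gsum n g := by
  induction n with
  | zero => intro f g; rfl
  | succ n ih =>
    intro f g
    simp only [gsum]
    rw [← Finset.sum_add_distrib]
    exact Finset.sum_congr rfl fun c _ => ih _ _

theorem gsum_sum {K : ℕ} {α : Type} (s : Finset α) (n : ℕ) : ∀ (f : α → Node K → ℝ),
    gsum n (fun w => ∑ a ∈ s, f a w) = ∑ a ∈ s, gsum n (f a) := by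
  induction n with
  | zero => intro f; rfl
  | succ n ih =>
    intro f
    simp only [gsum]
    rw [Finset.sum_comm]
    exact Finset.sum_congr rfl fun c _ => ih _

theorem gsum_zero {K : ℕ} (n : ℕ) : gsum n (fun _ : Node K => (0 : ℝ)) = 0 := by
  induction n with
  | zero => rfl
  | succ n ih => simp only [gsum, ih, Finset.sum_const_zero]

theorem gsum_nonpos {K : ℕ} (n : ℕ) :
    ∀ (f : Node K → ℝ), (∀ w, w.length = n → f w ≤ 0) → gsum n f ≤ 0 := by
  induction n with
  | zero => intro f hf; exact hf [] rfl
  | succ n ih =>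
    intro f hf
    exact Finset.sum_nonpos fun c _ => ih _ fun u hu => hf _ (by simp [hu])

theorem gsum_hasDerivAt {K : ℕ} (t : ℝ) (n : ℕ) : ∀ (f : ℝ → Node K → ℝ) (f' : Node K → ℝ),
    (∀ w, w.length = n → HasDerivAt (fun s => f s w) (f' w) t) →
    HasDerivAt (fun s => gsum n (f s)) (gsum n f') t := by
  induction n with
  | zero => intro f f' h; exact h [] rfl
  | succ n ih =>
    intro f f' h
    exact HasDerivAt.fun_sum fun c _ =>
      ih (fun s u => f s (c :: u)) (fun u => f' (c :: u)) fun u hu => h _ (by simp [hu])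

/-! ### The energy identity -/

theorem energy {K : ℕ} (ν μ q : ℝ) (Y : Node K → ℝ) (M : ℕ) :
    ∑ n ∈ range (M + 1), gsum n (fun w => Y w * rhs ν μ q Y w) =
      ∑ n ∈ range (M + 1), gsum n (fun w => -(ν * μ ^ w.length * Y w ^ 2)) +
        gsum M (fun w => -(q ^ (w.length + 1) * Y w ^ 2 * ∑ c : Fin K, Y (c :: w))) := by
  induction M with
  | zero =>
    simp only [zero_add, range_one, sum_singleton, gsum, rhs, gain]
    ring
  | succ M ih =>
    rw [Finset.sum_range_succ, ih, Finset.sum_range_succ _ (M + 1)]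
    have h1 : gsum (M + 1) (fun w => Y w * rhs ν μ q Y w) =
        gsum (M + 1) (fun w => -(ν * μ ^ w.length * Y w ^ 2)) +
          gsum (M + 1) (fun w => Y w * gain q Y w) +
          gsum (M + 1) (fun w => -(q ^ (w.length + 1) * Y w ^ 2 * ∑ c : Fin K, Y (c :: w))) := by
      rw [← gsum_add, ← gsum_add]
      refine gsum_congr _ _ _ fun w _ => ?_
      simp only [rhs]
      ring
    have h2 : gsum (M + 1) (fun w => Y w * gain q Y w) +
        gsum M (fun w => -(q ^ (w.length + 1) * Y w ^ 2 * ∑ c : Fin K, Y (c :: w))) = 0 := by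
      have h3 : gsum (M + 1) (fun w => Y w * gain q Y w) =
          gsum M (fun w => ∑ c : Fin K, Y (c :: w) * (q ^ (w.length + 1) * Y w ^ 2)) := by
        rw [gsum_sum]
        rfl
      rw [h3, ← gsum_add]
      refine (gsum_congr _ _ _ fun w _ => ?_).trans (gsum_zero M)
      rw [← Finset.sum_mul]
      ring
    rw [h1]
    linarith

/-! ### Bounded Lipschitz functions -/

/-- bounded Lipschitz functions -/
def BL {ι : Type} [Fintype ι] (f : (ι → ℝ) → ℝ) : Prop :=
  ∃ C : ℝ, 0 ≤ C ∧ (∀ x, |f x| ≤ C) ∧ ∀ x y, |f x - f y| ≤ C * dist x y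

variable {ι : Type} [Fintype ι] {f g : (ι → ℝ) → ℝ}

theorem BL.const (c : ℝ) : BL (fun _ : ι → ℝ => c) :=
  ⟨|c|, abs_nonneg _, fun _ => le_rfl, fun x y => by
    rw [sub_self, abs_zero]; exact mul_nonneg (abs_nonneg _) dist_nonneg⟩

theorem BL.add (hf : BL f) (hg : BL g) : BL (fun x => f x + g x) := by
  obtain ⟨C, hC, h1, h2⟩ := hf
  obtain ⟨D, hD, h3, h4⟩ := hg
  refine ⟨C + D, add_nonneg hC hD, fun x => (abs_add_le _ _).trans (add_le_add (h1 x) (h3 x)),
    fun x y => ?_⟩
  calc |f x + g x - (f y + g y)| = |(f x - f y) + (g x - g y)| := by ring_nf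
    _ ≤ |f x - f y| + |g x - g y| := abs_add_le _ _
    _ ≤ C * dist x y + D * dist x y := add_le_add (h2 x y) (h4 x y)
    _ = (C + D) * dist x y := by ring

theorem BL.neg (hf : BL f) : BL (fun x => -f x) := by
  obtain ⟨C, hC, h1, h2⟩ := hf
  refine ⟨C, hC, fun x => by rw [abs_neg]; exact h1 x, fun x y => ?_⟩
  rw [show -f x - -f y = -(f x - f y) by ring, abs_neg]
  exact h2 x y

theorem BL.mul (hf : BL f) (hg : BL g) : BL (fun x => f x * g x) := by
  obtain ⟨C, hC, h1, h2⟩ := hf
  obtain ⟨D, hD, h3, h4⟩ := hg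
  have hCD : 0 ≤ C * D := mul_nonneg hC hD
  refine ⟨2 * (C * D), by linarith, fun x => ?_, fun x y => ?_⟩
  · rw [abs_mul]
    have := mul_le_mul (h1 x) (h3 x) (abs_nonneg _) hC
    linarith
  · calc |f x * g x - f y * g y| = |f x * (g x - g y) + (f x - f y) * g y| := by ring_nf
      _ ≤ |f x * (g x - g y)| + |(f x - f y) * g y| := abs_add_le _ _
      _ = |f x| * |g x - g y| + |f x - f y| * |g y| := by rw [abs_mul, abs_mul]
      _ ≤ C * (D * dist x y) + (C * dist x y) * D :=
          add_le_add (mul_le_mul (h1 x) (h4 x y) (abs_nonneg _) hC)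
            (mul_le_mul (h2 x y) (h3 y) (abs_nonneg _) (mul_nonneg hC dist_nonneg))
      _ = 2 * (C * D) * dist x y := by ring

theorem BL.sum {α : Type} (s : Finset α) (F : α → (ι → ℝ) → ℝ) (h : ∀ a, BL (F a)) :
    BL (fun x => ∑ a ∈ s, F a x) := by
  classical
  induction s using Finset.induction_on with
  | empty => simpa using BL.const (ι := ι) 0
  | insert a s ha ih =>
    have := (h a).add ih
    simpa [Finset.sum_insert ha] using this

theorem BL.clamp {R : ℝ} (hR : 0 ≤ R) (w : ι) : BL (fun x : ι → ℝ => min (max (x w) 0) R) := by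
  have h0 : ∀ x : ι → ℝ, 0 ≤ min (max (x w) 0) R := fun x => le_min (le_max_right _ _) hR
  refine ⟨R + 1, by linarith, fun x => ?_, fun x y => ?_⟩
  · rw [abs_of_nonneg (h0 x)]
    exact (min_le_right _ _).trans (by linarith)
  · have h1 : |min (max (x w) 0) R - min (max (y w) 0) R| ≤ |max (x w) 0 - max (y w) 0| :=
      abs_min_sub_min_le_max _ _ _ _ |>.trans (by simp)
    have h2 : |max (x w) 0 - max (y w) 0| ≤ |x w - y w| := 
      abs_max_sub_max_le_abs _ _ _
    have h3 : |x w - y w| ≤ dist x y := dist_le_pi_dist x y w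
    have h4 : 0 ≤ dist x y := dist_nonneg
    nlinarith

/-! ### The truncated vector field -/

/-- extension by zero with clamped values -/
noncomputable def ext {K N : ℕ} (R : ℝ) (x : {w : Node K // w.length ≤ N} → ℝ) (w : Node K) : ℝ :=
  if h : w.length ≤ N then min (max (x ⟨w, h⟩) 0) R else 0

theorem main (hGE : S_GE) : S_gal := by
  intro K ν μ q N u hν hμ hq hu
  classical
  have : Finite {w : Node K // w.length ≤ N} := List.finite_length_le (Fin K) N
  let _ : Fintype {w : Node K // w.length ≤ N} := Fintype.ofFinite _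
  set E0 : ℝ := ∑ n ∈ range (N + 1), gsum n (fun w => u w ^ 2) with hE0
  have hE0' : 0 ≤ E0 := Finset.sum_nonneg fun n _ => gsum_nonneg _ _ fun w => sq_nonneg _
  set R : ℝ := E0 + 1 with hR
  have hR0 : 0 < R := by linarith
  have hR2 : E0 < R ^ 2 := by nlinarith
  -- the components of the extended vector field
  have hext : ∀ w : Node K, BL (fun x : {w : Node K // w.length ≤ N} → ℝ => ext R x w) := by
    intro w
    by_cases h : w.length ≤ N
    · simp only [ext, h, dif_pos]
      exact BL.clamp hR0.le _
    · simp only [ext, h, dif_neg, not_false_eq_true]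
      exact BL.const 0
  have hrhs : ∀ w : Node K, BL (fun x : {w : Node K // w.length ≤ N} → ℝ =>
      rhs ν μ q (ext R x) w) := by
    intro w
    have h1 : BL (fun x : {w : Node K // w.length ≤ N} → ℝ =>
        -(ν * μ ^ w.length * ext R x w)) := ((BL.const _).mul (hext w)).neg
    have h2 : BL (fun x : {w : Node K // w.length ≤ N} → ℝ => gain q (ext R x) w) := by
      cases w with
      | nil => exact BL.const 0
      | cons c v =>
        have := (BL.const (ι := {w : Node K // w.length ≤ N}) (q ^ (v.length + 1))).mul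
          ((hext v).mul (hext v))
        simpa [gain, sq] using this
    have h3 : BL (fun x : {w : Node K // w.length ≤ N} → ℝ =>
        -(q ^ (w.length + 1) * ext R x w * ∑ c : Fin K, ext R x (c :: w))) :=
      (((BL.const _).mul (hext w)).mul (BL.sum _ _ fun c => hext (c :: w))).neg
    have h4 := (h1.add h2).add h3
    simpa [rhs, sub_eq_add_neg] using h4
  choose C hC0 hC1 hC2 using hrhs
  set S : ℝ := ∑ w : {w : Node K // w.length ≤ N}, C w with hS
  have hS0 : 0 ≤ S := Finset.sum_nonneg fun w _ => hC0 _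
  have hCS : ∀ w : {w : Node K // w.length ≤ N}, C w ≤ S := fun w =>
    Finset.single_le_sum (f := fun w : {w : Node K // w.length ≤ N} => C w)
      (fun w _ => hC0 _) (Finset.mem_univ w)
  set F : ({w : Node K // w.length ≤ N} → ℝ) → ({w : Node K // w.length ≤ N} → ℝ) :=
    fun x w => rhs ν μ q (ext R x) w with hF
  have hLip : LipschitzWith ⟨S, hS0⟩ F := by
    refine LipschitzWith.of_dist_le_mul fun x y => ?_
    refine (dist_pi_le_iff (mul_nonneg hS0 dist_nonneg)).2 fun w => ?_
    refine (hC2 w x y).trans ?_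
    exact mul_le_mul_of_nonneg_right (hCS w) dist_nonneg
  have hB : ∀ x, ‖F x‖ ≤ S := by
    intro x
    refine (pi_norm_le_iff_of_nonneg hS0).2 fun w => ?_
    exact (hC1 w x).trans (hCS w)
  obtain ⟨x, hx0, hx⟩ := hGE _ F _ S hLip hB (fun w => u w)
  have hxw : ∀ (w : {w : Node K // w.length ≤ N}) (t : ℝ),
      HasDerivAt (fun s => x s w) (F (x t) w) t := fun w t => (hasDerivAt_pi.1 (hx t)) w
  have hxc : ∀ w : {w : Node K // w.length ≤ N}, Continuous (fun s => x s w) := fun w =>
    continuous_iff_continuousAt.2 fun t => (hxw w t).continuousAt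
  -- nonnegativity
  have hnn : ∀ w : {w : Node K // w.length ≤ N}, ∀ t, 0 ≤ t → 0 ≤ x t w := by
    intro w t ht
    have key : ∀ ε : ℝ, 0 < ε → -(x t w) ≤ ε * (1 + t) := by
      intro ε hε
      have := image_le_of_deriv_right_lt_deriv_boundary (f := fun s => -(x s w))
        (f' := fun s => -(F (x s) w)) (a := 0) (b := t) ((hxc w).neg.continuousOn)
        (fun s _ => (hxw w s).neg.hasDerivWithinAt) (B := fun s => ε * (1 + s))
        (B' := fun _ => ε) (by
          simp only [hx0]
          have := hu w
          nlinarith)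
        (fun s => by
          have := ((hasDerivAt_id s).const_add 1).const_mul ε
          simpa using this)
        (fun s hs h => by
          have hneg : x s w < 0 := by
            have : 0 < ε * (1 + s) := mul_pos hε (by linarith [hs.1])
            linarith
          have hz : ext R (x s) w.1 = 0 := by
            simp only [ext, w.2, dif_pos]
            rw [max_eq_right hneg.le, min_eq_left hR0.le]
          have hg : 0 ≤ gain q (ext R (x s)) w.1 := by
            rcases w with ⟨w, hw⟩
            cases w with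
            | nil => exact le_refl _
            | cons c v => exact mul_nonneg (pow_nonneg hq.le _) (sq_nonneg _)
          have hFw : 0 ≤ F (x s) w := by
            simp only [hF, rhs, hz, mul_zero, zero_mul, neg_zero, zero_add, sub_zero]
            exact hg
          linarith)
      exact this ⟨ht, le_refl t⟩
    by_contra hcon
    push Not at hcon
    have h1 : 0 < 1 + t := by linarith
    have := key (-(x t w) / (2 * (1 + t))) (div_pos (by linarith) (by linarith))
    have h2 : -(x t w) / (2 * (1 + t)) * (1 + t) = -(x t w) / 2 := by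
      field_simp
    rw [h2] at this
    linarith
  -- the extension of the solution
  set X : ℝ → Node K → ℝ := fun t w => if h : w.length ≤ N then x t ⟨w, h⟩ else 0 with hX
  have hXd : ∀ w : Node K, w.length ≤ N → ∀ t,
      HasDerivAt (fun s => X s w) (rhs ν μ q (ext R (x t)) w) t := by
    intro w hw t
    simp only [hX, hw, dif_pos]
    exact hxw ⟨w, hw⟩ t
  have hXc : ∀ w : Node K, Continuous (fun s => X s w) := by
    intro w
    by_cases hw : w.length ≤ N
    · simp only [hX, hw, dif_pos]
      exact hxc ⟨w, hw⟩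
    · simp only [hX, hw, dif_neg, not_false_eq_true]
      exact continuous_const
  have hXnn : ∀ t, 0 ≤ t → ∀ w, 0 ≤ X t w := by
    intro t ht w
    by_cases hw : w.length ≤ N
    · simp only [hX, hw, dif_pos]
      exact hnn ⟨w, hw⟩ t ht
    · simp only [hX, hw, dif_neg, not_false_eq_true]
      exact le_refl _
  have hXz : ∀ t, ∀ w : Node K, N < w.length → X t w = 0 := by
    intro t w hw
    simp only [hX, not_le.2 hw, dif_neg, not_false_eq_true]
  have hX0 : ∀ w : Node K, w.length ≤ N → X 0 w = u w := by
    intro w hw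
    simp only [hX, hw, dif_pos, hx0]
  -- where the clamping has no effect
  have hsame : ∀ t, 0 ≤ t → (∀ w : Node K, w.length ≤ N → X t w ≤ R) → ext R (x t) = X t := by
    intro t ht h
    funext w
    by_cases hw : w.length ≤ N
    · have h1 := hXnn t ht w
      have h2 := h w hw
      simp only [hX, hw, dif_pos] at h1 h2
      simp only [ext, hX, hw, dif_pos]
      rw [max_eq_left h1, min_eq_left h2]
    · simp only [ext, hX, hw, dif_neg, not_false_eq_true]
  -- the energy
  set e : ℝ → ℝ := fun t => ∑ n ∈ range (N + 1), gsum n (fun w => X t w ^ 2) with he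
  have he0 : e 0 = E0 := by
    simp only [he, hE0]
    refine Finset.sum_congr rfl fun n hn => gsum_congr _ _ _ fun w hw => ?_
    rw [hX0 w (by rw [hw]; exact Nat.lt_succ_iff.1 (Finset.mem_range.1 hn))]
  have hed : ∀ t, HasDerivAt e (∑ n ∈ range (N + 1),
      gsum n (fun w => 2 * X t w * rhs ν μ q (ext R (x t)) w)) t := by
    intro t
    refine HasDerivAt.fun_sum fun n hn => ?_
    refine gsum_hasDerivAt t n (fun s w => X s w ^ 2) _ fun w hw => ?_
    have := (hXd w (by rw [hw]; exact Nat.lt_succ_iff.1 (Finset.mem_range.1 hn)) t).fun_pow 2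
    simpa using this
  have hle : ∀ t, ∀ w : Node K, w.length ≤ N → X t w ^ 2 ≤ e t := by
    intro t w hw
    refine (le_gsum w (fun w => X t w ^ 2) fun w => sq_nonneg _).trans ?_
    exact Finset.single_le_sum (f := fun n => gsum n (fun w => X t w ^ 2))
      (fun n _ => gsum_nonneg _ _ fun w => sq_nonneg _)
      (Finset.mem_range.2 (Nat.lt_succ_iff.2 hw))
  have hed0 : ∀ t, 0 ≤ t → e t < R ^ 2 → (∑ n ∈ range (N + 1),
      gsum n (fun w => 2 * X t w * rhs ν μ q (ext R (x t)) w)) ≤ 0 := by
    intro t ht hlt
    have h1 : ext R (x t) = X t := hsame t ht fun w hw =>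
      (le_abs_self _).trans (abs_le_of_sq_le_sq ((hle t w hw).trans hlt.le) hR0.le)
    rw [h1]
    have h2 := energy ν μ q (X t) N
    have h3 : gsum N (fun w => -(q ^ (w.length + 1) * X t w ^ 2 * ∑ c : Fin K, X t (c :: w)))
        ≤ 0 := by
      refine gsum_nonpos _ _ fun w hw => ?_
      have : ∑ c : Fin K, X t (c :: w) = 0 :=
        Finset.sum_eq_zero fun c _ => hXz t _ (by simp [hw])
      rw [this, mul_zero, neg_zero]
    have h4 : ∑ n ∈ range (N + 1), gsum n (fun w => -(ν * μ ^ w.length * X t w ^ 2)) ≤ 0 := by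
      refine Finset.sum_nonpos fun n _ => gsum_nonpos _ _ fun w _ => ?_
      have : 0 ≤ ν * μ ^ w.length * X t w ^ 2 := by positivity
      linarith
    have h5 : ∑ n ∈ range (N + 1), gsum n (fun w => 2 * X t w * rhs ν μ q (X t) w) =
        ∑ n ∈ range (N + 1), gsum n (fun w => X t w * rhs ν μ q (X t) w) +
        ∑ n ∈ range (N + 1), gsum n (fun w => X t w * rhs ν μ q (X t) w) := by
      rw [← Finset.sum_add_distrib]
      refine Finset.sum_congr rfl fun n _ => ?_
      rw [← gsum_add]
      exact gsum_congr _ _ _ fun w _ => by ring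
    rw [h5]
    linarith
  have hbound : ∀ T, 0 ≤ T → e T < R ^ 2 := by
    intro T hT
    set ε : ℝ := (R ^ 2 - E0) / (2 * (1 + T)) with hε
    have hT1 : 0 < 1 + T := by linarith
    have hε0 : 0 < ε := div_pos (by linarith) (by linarith)
    have hεT : ε * (1 + T) = (R ^ 2 - E0) / 2 := by
      rw [hε]; field_simp
    have := image_le_of_deriv_right_lt_deriv_boundary (f := e)
        (f' := fun t => ∑ n ∈ range (N + 1),
          gsum n (fun w => 2 * X t w * rhs ν μ q (ext R (x t)) w)) (a := 0) (b := T)
        (fun t _ => (hed t).continuousAt.continuousWithinAt)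
        (fun s _ => (hed s).hasDerivWithinAt) (B := fun s => E0 + ε * (1 + s))
        (B' := fun _ => ε) (by
          simp only [he0]
          linarith)
        (fun s => by
          have := (((hasDerivAt_id s).const_add 1).const_mul ε).const_add E0
          simpa using this)
        (fun s hs h => by
          have h1 : e s < R ^ 2 := by
            rw [h]
            have : ε * (1 + s) ≤ ε * (1 + T) :=
              mul_le_mul_of_nonneg_left (by linarith [hs.2]) hε0.le
            rw [hεT] at this
            linarith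
          exact (hed0 s hs.1 h1).trans_lt hε0)
    have h2 := this ⟨hT, le_refl T⟩
    rw [hεT] at h2
    linarith
  have hfin : ∀ t, 0 ≤ t → ext R (x t) = X t := fun t ht => hsame t ht fun w hw =>
    (le_abs_self _).trans (abs_le_of_sq_le_sq ((hle t w hw).trans (hbound t ht).le) hR0.le)
  refine ⟨X, ⟨⟨hXnn, fun w => (hXc w).continuousOn, fun w hw t ht => ?_⟩,
    fun t _ w hw => hXz t w hw⟩, hX0⟩
  have := hXd w hw t
  rw [hfin t ht.le] at this
  exact this

end Pool.Agent.W455.DyGal
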