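import Pool.Agent.W792.GK.Stm

/-! # Sum of Poisson kernels over a grid for a hermitian matrix -/

set_option autoImplicit false

namespace Pool.Agent.W455.GKGrid

open Pool.Agent.W792.GK Finset Matrix

/-- auxiliary function of total variation `5` -/
noncomputable def g (y : ℝ) : ℝ := (5 / 2) * (y / (1 + |y|))

theorem g_le (y : ℝ) : g y ≤ 5 / 2 := by
  unfold g
  have h : y / (1 + |y|) ≤ 1 := by
    rw [div_le_one (by positivity)]
    linarith [le_abs_self y]
  linarith

theorem g_ge (y : ℝ) : -(5 / 2) ≤ g y := by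
  unfold g
  have h : -1 ≤ y / (1 + |y|) := by
    rw [le_div_iff₀ (by positivity)]
    linarith [neg_abs_le y]
  linarith

theorem g_neg (y : ℝ) : g (-y) = -g y := by
  unfold g
  rw [abs_neg]
  ring

theorem gstep_pos (y : ℝ) (hy : 0 ≤ y) : 1 / (y ^ 2 + 1) ≤ g (y + 1 / 2) - g (y - 1 / 2) := by
  rcases le_total (1 / 2) y with h | h
  · have h1 : g (y + 1 / 2) - g (y - 1 / 2) = (5 / 2) / ((y + 3 / 2) * (y + 1 / 2)) := by
      unfold g
      rw [abs_of_nonneg (by linarith), abs_of_nonneg (by linarith : 0 ≤ y - 1 / 2)]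
      have h2 : (1 : ℝ) + (y + 1 / 2) ≠ 0 := by positivity
      have h3 : (1 : ℝ) + (y - 1 / 2) ≠ 0 := by
        have : 0 < (1 : ℝ) + (y - 1 / 2) := by linarith
        exact this.ne'
      have h4 : (y + 3 / 2) ≠ 0 := by positivity
      have h5 : (y + 1 / 2) ≠ 0 := by positivity
      have e2 : (1 : ℝ) + (y + 1 / 2) = y + 3 / 2 := by ring
      have e3 : (1 : ℝ) + (y - 1 / 2) = y + 1 / 2 := by ring
      rw [e2, e3]
      field_simp
      ring
    rw [h1, div_le_div_iff₀ (by positivity) (by positivity)]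
    nlinarith [sq_nonneg (y - 2 / 3)]
  · have h1 : g (y + 1 / 2) - g (y - 1 / 2) =
        (5 / 2) * (3 / 2 - 2 * y ^ 2) / ((3 / 2 + y) * (3 / 2 - y)) := by
      unfold g
      rw [abs_of_nonneg (by linarith), abs_of_nonpos (by linarith : y - 1 / 2 ≤ 0)]
      have h4 : (3 / 2 + y) ≠ 0 := by positivity
      have h5 : (3 / 2 - y) ≠ 0 := by
        have : 0 < 3 / 2 - y := by linarith
        exact this.ne'
      have e2 : (1 : ℝ) + (y + 1 / 2) = 3 / 2 + y := by ring
      have e3 : (1 : ℝ) + -(y - 1 / 2) = 3 / 2 - y := by ring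
      rw [e2, e3]
      obtain ⟨b, hb⟩ : ∃ b, b = 3 / 2 - y := ⟨_, rfl⟩
      rw [← hb] at h5 ⊢
      rw [mul_div_assoc', mul_div_assoc', div_sub_div _ _ h4 h5, div_left_inj' (mul_ne_zero h4 h5), hb]
      ring
    have h6 : 0 < (3 / 2 + y) * (3 / 2 - y) := mul_pos (by linarith) (by linarith)
    rw [h1, div_le_div_iff₀ (by positivity) h6]
    nlinarith [mul_nonneg hy (by linarith : 0 ≤ 1 / 2 - y), sq_nonneg y, sq_nonneg (y ^ 2),
      mul_nonneg (sq_nonneg y) (by nlinarith : 0 ≤ 1 / 4 - y ^ 2)]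

theorem gstep (y : ℝ) : 1 / (y ^ 2 + 1) ≤ g (y + 1 / 2) - g (y - 1 / 2) := by
  rcases le_total 0 y with h | h
  · exact gstep_pos y h
  · have := gstep_pos (-y) (by linarith)
    have e1 : -y + 1 / 2 = -(y - 1 / 2) := by ring
    have e2 : -y - 1 / 2 = -(y + 1 / 2) := by ring
    rw [e1, e2, g_neg, g_neg] at this
    have e3 : (-y) ^ 2 = y ^ 2 := by ring
    rw [e3] at this
    linarith

theorem sum_le (x : ℝ) (m : ℤ) :
    ∑ k ∈ Finset.Icc (-m) m, 1 / ((x - k) ^ 2 + 1) ≤ 5 := by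
  rw [Int.Icc_eq_finset_map, Finset.sum_map]
  have h : ∀ i ∈ Finset.range (m + 1 - -m).toNat,
      1 / ((x - (((Nat.castEmbedding.trans (addLeftEmbedding (-m))) i : ℤ) : ℝ)) ^ 2 + 1) ≤
        g (((i + 1 : ℕ) : ℝ) - m - x - 1 / 2) - g ((i : ℝ) - m - x - 1 / 2) := by
    intro i _
    have h1 := gstep ((i : ℝ) - m - x)
    have e1 : (((Nat.castEmbedding.trans (addLeftEmbedding (-m))) i : ℤ) : ℝ) = (i : ℝ) - m := by
      simp [sub_eq_add_neg, add_comm]
    rw [e1]
    have e2 : (x - ((i : ℝ) - m)) ^ 2 = ((i : ℝ) - m - x) ^ 2 := by ring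
    rw [e2]
    have e3 : ((i + 1 : ℕ) : ℝ) - m - x - 1 / 2 = (i : ℝ) - m - x + 1 / 2 := by
      push_cast
      ring
    rw [e3]
    exact h1
  refine (Finset.sum_le_sum h).trans ?_
  rw [Finset.sum_range_sub (fun i : ℕ => g ((i : ℝ) - m - x - 1 / 2))]
  have h1 := g_le ((((m + 1 - -m).toNat : ℕ) : ℝ) - m - x - 1 / 2)
  have h2 := g_ge (((0 : ℕ) : ℝ) - m - x - 1 / 2)
  linarith

theorem inv_diag {n : Type} [Fintype n] [DecidableEq n] {H : Matrix n n ℂ} (hH : H.IsHermitian)
    (z : ℂ) (hz : z.im ≠ 0) (i : n) :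
    ((H - z • (1 : Matrix n n ℂ))⁻¹) i i =
      ∑ l, ((‖(hH.eigenvectorUnitary : Matrix n n ℂ) i l‖ ^ 2 : ℝ) : ℂ) *
        ((hH.eigenvalues l : ℂ) - z)⁻¹ := by
  set U : Matrix n n ℂ := (hH.eigenvectorUnitary : Matrix n n ℂ) with hU
  have hUU : U * star U = 1 := Unitary.coe_mul_star_self hH.eigenvectorUnitary
  have hUU' : star U * U = 1 := Unitary.coe_star_mul_self hH.eigenvectorUnitary
  have hs : H = U * diagonal (fun l => (hH.eigenvalues l : ℂ)) * star U := by
    conv_lhs => rw [hH.spectral_theorem]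
    rfl
  have hne : ∀ l, (hH.eigenvalues l : ℂ) - z ≠ 0 := by
    intro l h
    have := congrArg Complex.im h
    simp at this
    exact hz this
  have h1 : H - z • (1 : Matrix n n ℂ) =
      U * diagonal (fun l => (hH.eigenvalues l : ℂ) - z) * star U := by
    have e1 : diagonal (fun l => (hH.eigenvalues l : ℂ) - z) =
        diagonal (fun l => (hH.eigenvalues l : ℂ)) - z • (1 : Matrix n n ℂ) := by
      ext a b
      by_cases hab : a = b
      · subst hab; simp
      · simp [hab]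
    rw [e1, Matrix.mul_sub, Matrix.sub_mul, ← hs]
    congr 1
    rw [Matrix.mul_smul, Matrix.smul_mul, Matrix.mul_one, hUU]
  have h2 : (H - z • (1 : Matrix n n ℂ))⁻¹ =
      U * diagonal (fun l => ((hH.eigenvalues l : ℂ) - z)⁻¹) * star U := by
    apply Matrix.inv_eq_right_inv
    rw [h1]
    calc U * diagonal (fun l => (hH.eigenvalues l : ℂ) - z) * star U *
        (U * diagonal (fun l => ((hH.eigenvalues l : ℂ) - z)⁻¹) * star U)
        = U * (diagonal (fun l => (hH.eigenvalues l : ℂ) - z) * (star U * U) *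
          diagonal (fun l => ((hH.eigenvalues l : ℂ) - z)⁻¹)) * star U := by
          simp only [Matrix.mul_assoc]
      _ = U * 1 * star U := by
          rw [hUU', Matrix.mul_one, Matrix.diagonal_mul_diagonal]
          have : (fun l => ((hH.eigenvalues l : ℂ) - z) * ((hH.eigenvalues l : ℂ) - z)⁻¹) =
              fun _ : n => (1 : ℂ) := by
            funext l
            exact mul_inv_cancel₀ (hne l)
          rw [this, Matrix.diagonal_one]
      _ = 1 := by rw [Matrix.mul_one, hUU]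
  rw [h2, Matrix.mul_apply]
  refine Finset.sum_congr rfl fun l _ => ?_
  rw [Matrix.mul_diagonal, Matrix.star_apply]
  have : (U i l) * star (U i l) = ((‖U i l‖ ^ 2 : ℝ) : ℂ) := by
    rw [Complex.star_def, Complex.mul_conj, Complex.normSq_eq_norm_sq]
  rw [← this]
  ring

theorem row_norm {n : Type} [Fintype n] [DecidableEq n] {H : Matrix n n ℂ} (hH : H.IsHermitian)
    (i : n) : ∑ l, ‖(hH.eigenvectorUnitary : Matrix n n ℂ) i l‖ ^ 2 = 1 := by
  set U : Matrix n n ℂ := (hH.eigenvectorUnitary : Matrix n n ℂ) with hU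
  have hUU : U * star U = 1 := Unitary.coe_mul_star_self hH.eigenvectorUnitary
  have h := congrFun (congrFun hUU i) i
  rw [Matrix.mul_apply, Matrix.one_apply_eq] at h
  have h2 : ∀ l, U i l * (star U) l i = ((‖U i l‖ ^ 2 : ℝ) : ℂ) := by
    intro l
    rw [Matrix.star_apply, Complex.star_def, Complex.mul_conj, Complex.normSq_eq_norm_sq]
  rw [Finset.sum_congr rfl fun l _ => h2 l] at h
  exact_mod_cast h

theorem pk (lam η : ℝ) (hη : 0 < η) (k : ℤ) :
    (((lam : ℂ) - zk η k)⁻¹).im = (1 / η) * (1 / ((lam / η - k) ^ 2 + 1)) := by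
  rw [Complex.inv_im]
  have h1 : ((lam : ℂ) - zk η k).im = -η := by simp [zk]
  have h2 : Complex.normSq ((lam : ℂ) - zk η k) = η ^ 2 * ((lam / η - k) ^ 2 + 1) := by
    rw [Complex.normSq_apply]
    simp only [zk, Complex.sub_re, Complex.sub_im, Complex.ofReal_re, Complex.ofReal_im]
    field_simp
    ring
  rw [h1, h2]
  have h3 : (lam / η - k) ^ 2 + 1 ≠ 0 := by positivity
  field_simp

theorem main : Pool.Agent.W792.GK.S_GRID := by
  intro n _ _ H hH η hη m i
  have hz : ∀ k : ℤ, (zk η k).im ≠ 0 := fun k => by simp [zk, hη.ne']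
  have hform : ∀ k : ℤ, (((H - zk η k • (1 : Matrix n n ℂ))⁻¹) i i).im =
      ∑ l, ‖(hH.eigenvectorUnitary : Matrix n n ℂ) i l‖ ^ 2 *
        ((1 / η) * (1 / ((hH.eigenvalues l / η - k) ^ 2 + 1))) := by
    intro k
    rw [inv_diag hH _ (hz k) i, Complex.im_sum]
    refine Finset.sum_congr rfl fun l _ => ?_
    rw [Complex.im_ofReal_mul, pk _ _ hη]
  refine ⟨fun k => ?_, ?_⟩
  · rw [hform k]
    exact Finset.sum_nonneg fun l _ => by positivity
  · simp only [hform]
    rw [Finset.sum_comm]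
    have h1 : ∀ l ∈ (Finset.univ : Finset n), (∑ k ∈ Finset.Icc (-m) m,
        ‖(hH.eigenvectorUnitary : Matrix n n ℂ) i l‖ ^ 2 *
        ((1 / η) * (1 / ((hH.eigenvalues l / η - k) ^ 2 + 1)))) ≤
        ‖(hH.eigenvectorUnitary : Matrix n n ℂ) i l‖ ^ 2 * (5 / η) := by
      intro l _
      rw [← Finset.mul_sum, ← Finset.mul_sum]
      refine mul_le_mul_of_nonneg_left ?_ (by positivity)
      have := sum_le (hH.eigenvalues l / η) m
      have h3 : (1 / η) * ∑ k ∈ Finset.Icc (-m) m, 1 / ((hH.eigenvalues l / η - k) ^ 2 + 1) ≤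
          (1 / η) * 5 := mul_le_mul_of_nonneg_left this (by positivity)
      calc _ ≤ (1 / η) * 5 := h3
        _ = 5 / η := by ring
    refine (Finset.sum_le_sum h1).trans ?_
    rw [← Finset.sum_mul, row_norm hH i, one_mul]

end Pool.Agent.W455.GKGrid
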